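import Mathlib

/-!
# A negative coefficient of `P_{4,10}`

For `n = 10` the rational function `P_{4,n}` has a pole at the primitive ninth roots of unity, so
it is not a polynomial, and its expansion in powers of `q` has a negative coefficient.
-/

namespace Pool.Agent.Results.MP_472c23_co.NegativeCoefficient

open Finset

/-! ## Definitions (power series over `ℚ` in the indeterminate `q`) -/

/-- `[m]! = (1 - q)(1 - q^2) ... (1 - q^m)`. -/
noncomputable def qfac (m : ℕ) : PowerSeries ℚ :=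
  ∏ i ∈ Icc 1 m, (1 - (PowerSeries.X : PowerSeries ℚ) ^ i)

/-- `F_n = [6n]! [n]! / ([3n]! [2n]!^2)`. -/
noncomputable def F (n : ℕ) : PowerSeries ℚ :=
  qfac (6 * n) * qfac n * (qfac (3 * n) * qfac (2 * n) ^ 2)⁻¹

/-- `P_{4,n} = (1 - q^3)(1 - q^5)(1 - q^7) / ((1 - q^(2n+3))(1 - q^(2n+5))(1 - q^(2n+7))) * F_n`,
as a power series in `q`. -/
noncomputable def P4 (n : ℕ) : PowerSeries ℚ :=
  (1 - PowerSeries.X ^ 3) * (1 - PowerSeries.X ^ 5) * (1 - PowerSeries.X ^ 7) *
    ((1 - PowerSeries.X ^ (2 * n + 3)) * (1 - PowerSeries.X ^ (2 * n + 5)) *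
      (1 - PowerSeries.X ^ (2 * n + 7)))⁻¹ * F n

/-! ## Cyclotomic factorisations -/

open Polynomial in
/-- `∏ Φ_d ^ (e d)` over `1 ≤ d ≤ 60`. -/
noncomputable def cyc (e : ℕ → ℕ) : ℚ[X] := ∏ d ∈ Icc 1 60, cyclotomic d ℚ ^ (e d)

lemma cyc_add (e f : ℕ → ℕ) : cyc (fun d => e d + f d) = cyc e * cyc f := by
  unfold cyc
  rw [← Finset.prod_mul_distrib]
  exact Finset.prod_congr rfl fun d _ => pow_add _ _ _

open Polynomial in
lemma pow_sub_one_eq (m : ℕ) (h1 : 1 ≤ m) (h2 : m ≤ 60) :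
    (X ^ m - 1 : ℚ[X]) = cyc (fun d => if d ∣ m then 1 else 0) := by
  rw [← prod_cyclotomic_eq_X_pow_sub_one h1 ℚ]
  unfold cyc
  have : (Icc 1 60).filter (fun d => d ∣ m) = m.divisors := by
    ext d
    simp only [mem_filter, mem_Icc, Nat.mem_divisors]
    constructor
    · rintro ⟨_, h⟩
      exact ⟨h, by omega⟩
    · rintro ⟨h, h'⟩
      exact ⟨⟨Nat.pos_of_dvd_of_pos h h1, (Nat.le_of_dvd h1 h).trans h2⟩, h⟩
  rw [← this, Finset.prod_filter]
  refine Finset.prod_congr rfl fun d _ => ?_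
  by_cases h : d ∣ m <;> simp [h]

open Polynomial in
lemma qfac_eq (M : ℕ) (hM : M ≤ 60) :
    ∏ i ∈ Icc 1 M, (X ^ i - 1 : ℚ[X]) = cyc (fun d => M / d) := by
  induction M with
  | zero => simp [cyc]
  | succ M ih =>
    rw [Finset.prod_Icc_succ_top (by omega), ih (by omega), pow_sub_one_eq (M + 1) (by omega) hM,
      ← cyc_add]
    congr 1
    funext d
    rw [Nat.succ_div]

/-- Exponents of the numerator of `P_{4,10}`. -/
def eN (d : ℕ) : ℕ :=
  (60 / d + 10 / d) + ((if d ∣ 3 then 1 else 0) + (if d ∣ 5 then 1 else 0) +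
    (if d ∣ 7 then 1 else 0))

/-- Exponents of the denominator of `P_{4,10}`. -/
def eD (d : ℕ) : ℕ :=
  (30 / d + (20 / d + 20 / d)) + ((if d ∣ 23 then 1 else 0) + (if d ∣ 25 then 1 else 0) +
    (if d ∣ 27 then 1 else 0))

/-- Exponents of the quotient `Φ_9 N / D`. -/
def eK (d : ℕ) : ℕ := eN d + (if d = 9 then 1 else 0) - eD d

lemma exponents : ∀ d ∈ Icc 1 60, eD d + eK d = eN d + (if d = 9 then 1 else 0) := by
  decide

open Polynomial in
/-- The numerator of `P_{4,10}` (with `q^i - 1` in place of `1 - q^i`). -/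
noncomputable def Np : ℚ[X] :=
  ((∏ i ∈ Icc 1 60, (X ^ i - 1 : ℚ[X])) * ∏ i ∈ Icc 1 10, (X ^ i - 1 : ℚ[X])) *
    ((X ^ 3 - 1) * (X ^ 5 - 1) * (X ^ 7 - 1))

open Polynomial in
/-- The denominator of `P_{4,10}` (with `q^i - 1` in place of `1 - q^i`). -/
noncomputable def Dp : ℚ[X] :=
  ((∏ i ∈ Icc 1 30, (X ^ i - 1 : ℚ[X])) *
      ((∏ i ∈ Icc 1 20, (X ^ i - 1 : ℚ[X])) * ∏ i ∈ Icc 1 20, (X ^ i - 1 : ℚ[X]))) *
    ((X ^ 23 - 1) * (X ^ 25 - 1) * (X ^ 27 - 1))

lemma Np_eq : Np = cyc eN := by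
  unfold Np
  rw [qfac_eq 60 (by norm_num), qfac_eq 10 (by norm_num), pow_sub_one_eq 3 (by norm_num)
    (by norm_num), pow_sub_one_eq 5 (by norm_num) (by norm_num),
    pow_sub_one_eq 7 (by norm_num) (by norm_num)]
  rw [← cyc_add, ← cyc_add, ← cyc_add, ← cyc_add]
  rfl

lemma Dp_eq : Dp = cyc eD := by
  unfold Dp
  rw [qfac_eq 30 (by norm_num), qfac_eq 20 (by norm_num), pow_sub_one_eq 23 (by norm_num)
    (by norm_num), pow_sub_one_eq 25 (by norm_num) (by norm_num),
    pow_sub_one_eq 27 (by norm_num) (by norm_num)]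
  rw [← cyc_add, ← cyc_add, ← cyc_add, ← cyc_add, ← cyc_add]
  rfl

lemma cyc_congr {e f : ℕ → ℕ} (h : ∀ d ∈ Icc 1 60, e d = f d) : cyc e = cyc f := by
  unfold cyc
  exact Finset.prod_congr rfl fun d hd => by rw [h d hd]

open Polynomial in
lemma cyc_nine : cyc (fun d => if d = 9 then 1 else 0) = cyclotomic 9 ℚ := by
  unfold cyc
  rw [Finset.prod_eq_single 9]
  · simp
  · intro b _ hb
    simp [hb]
  · intro h
    exact absurd (by decide) h

open Polynomial in
lemma key1 : Np * cyclotomic 9 ℚ = Dp * cyc eK := by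
  rw [Np_eq, Dp_eq, ← cyc_nine, ← cyc_add, ← cyc_add]
  exact cyc_congr fun d hd => (exponents d hd).symm

open Polynomial in
lemma cyclotomic_nine : cyclotomic 9 ℚ = 1 + X ^ 3 + X ^ 6 := by
  have h : (9 : ℕ) = 3 ^ (1 + 1) := by norm_num
  rw [h, cyclotomic_prime_pow_eq_geom_sum Nat.prime_three]
  simp only [Finset.sum_range_succ, Finset.sum_range_zero]
  norm_num
  ring

open Polynomial in
/-- `D` does not divide `N`. -/
lemma key2 (p : ℚ[X]) : Dp * p ≠ Np := by
  intro h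
  rw [Np_eq, Dp_eq] at h
  have hsplit : ∀ e : ℕ → ℕ, cyc e = cyclotomic 9 ℚ ^ (e 9) *
      ∏ d ∈ (Icc 1 60).erase 9, cyclotomic d ℚ ^ (e d) := by
    intro e
    unfold cyc
    rw [Finset.mul_prod_erase (Icc 1 60) (fun d => cyclotomic d ℚ ^ (e d)) (by decide)]
  rw [hsplit eD, hsplit eN] at h
  have e1 : eD 9 = 8 := by decide
  have e2 : eN 9 = 7 := by decide
  rw [e1, e2] at h
  have hne : cyclotomic 9 ℚ ≠ 0 := cyclotomic_ne_zero 9 ℚ
  have hdvd : cyclotomic 9 ℚ ∣ ∏ d ∈ (Icc 1 60).erase 9, cyclotomic d ℚ ^ (eN d) := by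
    refine ⟨(∏ d ∈ (Icc 1 60).erase 9, cyclotomic d ℚ ^ (eD d)) * p, ?_⟩
    have h7 : cyclotomic 9 ℚ ^ 7 ≠ 0 := pow_ne_zero _ hne
    apply mul_left_cancel₀ h7
    rw [← h]
    ring
  have hcop : IsCoprime (cyclotomic 9 ℚ)
      (∏ d ∈ (Icc 1 60).erase 9, cyclotomic d ℚ ^ (eN d)) := by
    apply IsCoprime.prod_right
    intro d hd
    apply IsCoprime.pow_right
    apply cyclotomic.isCoprime_rat
    exact fun h9 => (Finset.mem_erase.mp hd).1 h9.symm
  have hunit : IsUnit (cyclotomic 9 ℚ) := hcop.isUnit_of_dvd' dvd_rfl hdvd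
  have hdeg := natDegree_eq_zero_of_isUnit hunit
  rw [natDegree_cyclotomic] at hdeg
  revert hdeg
  decide

/-! ## The power series -/

lemma coe_prod (M : ℕ) : ((∏ i ∈ Icc 1 M, (Polynomial.X ^ i - 1 : Polynomial ℚ) :
    Polynomial ℚ) : PowerSeries ℚ) = (-1) ^ M * qfac M := by
  unfold qfac
  induction M with
  | zero => simp
  | succ M ih =>
    rw [Finset.prod_Icc_succ_top (by omega), Finset.prod_Icc_succ_top (by omega),
      Polynomial.coe_mul, ih, pow_succ]
    push_cast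
    ring

lemma coe_factor (m : ℕ) : ((Polynomial.X ^ m - 1 : Polynomial ℚ) : PowerSeries ℚ)
    = - (1 - PowerSeries.X ^ m) := by
  push_cast
  ring

lemma const_qfac (m : ℕ) : PowerSeries.constantCoeff (qfac m) = 1 := by
  unfold qfac
  rw [map_prod]
  apply Finset.prod_eq_one
  intro i hi
  have : i ≠ 0 := by
    have := (Finset.mem_Icc.mp hi).1
    omega
  simp [this]

lemma P4_mul : P4 10 * (Dp : PowerSeries ℚ) = (Np : PowerSeries ℚ) := by
  have hA : (qfac 30 * qfac 20 ^ 2) * (qfac 30 * qfac 20 ^ 2)⁻¹ = 1 := by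
    apply PowerSeries.mul_inv_cancel
    simp [const_qfac]
  have hB : ((1 - PowerSeries.X ^ 23) * (1 - PowerSeries.X ^ 25) * (1 - PowerSeries.X ^ 27) :
      PowerSeries ℚ) * ((1 - PowerSeries.X ^ 23) * (1 - PowerSeries.X ^ 25) *
      (1 - PowerSeries.X ^ 27))⁻¹ = 1 := by
    apply PowerSeries.mul_inv_cancel
    simp
  have hP : P4 10 = (1 - PowerSeries.X ^ 3) * (1 - PowerSeries.X ^ 5) * (1 - PowerSeries.X ^ 7) *
    ((1 - PowerSeries.X ^ 23) * (1 - PowerSeries.X ^ 25) *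
      (1 - PowerSeries.X ^ 27))⁻¹ * (qfac 60 * qfac 10 * (qfac 30 * qfac 20 ^ 2)⁻¹) := rfl
  have hD : (Dp : PowerSeries ℚ) = (qfac 30 * qfac 20 ^ 2) *
      -((1 - PowerSeries.X ^ 23) * (1 - PowerSeries.X ^ 25) * (1 - PowerSeries.X ^ 27)) := by
    unfold Dp
    rw [Polynomial.coe_mul, Polynomial.coe_mul, Polynomial.coe_mul, Polynomial.coe_mul,
      Polynomial.coe_mul, coe_prod, coe_prod, coe_factor, coe_factor, coe_factor]
    generalize (1 - PowerSeries.X ^ 23 : PowerSeries ℚ) = x1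
    generalize (1 - PowerSeries.X ^ 25 : PowerSeries ℚ) = x2
    generalize (1 - PowerSeries.X ^ 27 : PowerSeries ℚ) = x3
    generalize qfac 30 = x4
    generalize qfac 20 = x5
    have e1 : ((-1 : PowerSeries ℚ)) ^ 30 = 1 := by norm_num
    have e2 : ((-1 : PowerSeries ℚ)) ^ 20 = 1 := by norm_num
    rw [e1, e2]
    ring
  have hN : (Np : PowerSeries ℚ) = (qfac 60 * qfac 10) *
      -((1 - PowerSeries.X ^ 3) * (1 - PowerSeries.X ^ 5) * (1 - PowerSeries.X ^ 7)) := by
    unfold Np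
    rw [Polynomial.coe_mul, Polynomial.coe_mul, Polynomial.coe_mul, Polynomial.coe_mul,
      coe_prod, coe_prod, coe_factor, coe_factor, coe_factor]
    generalize (1 - PowerSeries.X ^ 3 : PowerSeries ℚ) = x1
    generalize (1 - PowerSeries.X ^ 5 : PowerSeries ℚ) = x2
    generalize (1 - PowerSeries.X ^ 7 : PowerSeries ℚ) = x3
    generalize qfac 60 = x4
    generalize qfac 10 = x5
    have e1 : ((-1 : PowerSeries ℚ)) ^ 60 = 1 := by norm_num
    have e2 : ((-1 : PowerSeries ℚ)) ^ 10 = 1 := by norm_num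
    rw [e1, e2]
    ring
  rw [hP, hD, hN]
  revert hA hB
  generalize (qfac 30 * qfac 20 ^ 2)⁻¹ = ai
  generalize (qfac 30 * qfac 20 ^ 2) = aa
  generalize ((1 - PowerSeries.X ^ 23) * (1 - PowerSeries.X ^ 25) *
      (1 - PowerSeries.X ^ 27) : PowerSeries ℚ)⁻¹ = bi
  generalize ((1 - PowerSeries.X ^ 23) * (1 - PowerSeries.X ^ 25) *
      (1 - PowerSeries.X ^ 27) : PowerSeries ℚ) = bb
  generalize ((1 - PowerSeries.X ^ 3) * (1 - PowerSeries.X ^ 5) *
      (1 - PowerSeries.X ^ 7) : PowerSeries ℚ) = cc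
  generalize qfac 60 * qfac 10 = dd
  intro hA hB
  calc cc * bi * (dd * ai) * (aa * -bb) = -(cc * dd * (aa * ai) * (bb * bi)) := by ring
    _ = dd * -cc := by rw [hA, hB]; ring

/-- The negated form of Q1 holds with `i = 4`: there are `n ≥ 2` and `k` such that the coefficient
of `q^k` in `P_{4,n}` is negative. -/
theorem result : ∃ n : ℕ, 2 ≤ n ∧ ∃ k : ℕ, PowerSeries.coeff k (P4 n) < 0 := by
  refine ⟨10, by norm_num, ?_⟩
  by_contra hcon
  push Not at hcon
  set K := cyc eK with hK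
  have hDne : (Dp : PowerSeries ℚ) ≠ 0 := by
    intro h0
    have h1 := P4_mul
    rw [h0, mul_zero] at h1
    have h2 : Np = 0 := by
      have : (Np : PowerSeries ℚ) = ((0 : Polynomial ℚ) : PowerSeries ℚ) := by
        rw [← h1]
        simp
      exact Polynomial.coe_injective ℚ this
    have h3 : Dp = 0 := by
      have : (Dp : PowerSeries ℚ) = ((0 : Polynomial ℚ) : PowerSeries ℚ) := by
        rw [h0]
        simp
      exact Polynomial.coe_injective ℚ this
    exact key2 0 (by rw [h2, h3]; simp)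
  have h9 : P4 10 * ((Polynomial.cyclotomic 9 ℚ : Polynomial ℚ) : PowerSeries ℚ)
      = (K : PowerSeries ℚ) := by
    apply mul_left_cancel₀ hDne
    have := congrArg (fun p : Polynomial ℚ => (p : PowerSeries ℚ)) key1
    simp only [Polynomial.coe_mul] at this
    rw [← this, ← P4_mul]
    ring
  have hexp : P4 10 * ((Polynomial.cyclotomic 9 ℚ : Polynomial ℚ) : PowerSeries ℚ)
      = P4 10 + P4 10 * PowerSeries.X ^ 3 + P4 10 * PowerSeries.X ^ 6 := by
    rw [cyclotomic_nine]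
    push_cast
    ring
  have hzero : ∀ k, K.natDegree < k → PowerSeries.coeff k (P4 10) = 0 := by
    intro k hk
    have h1 : PowerSeries.coeff k (K : PowerSeries ℚ) = 0 := by
      rw [Polynomial.coeff_coe]
      exact Polynomial.coeff_eq_zero_of_natDegree_lt hk
    rw [← h9, hexp, map_add, map_add] at h1
    have h2 : 0 ≤ PowerSeries.coeff k (P4 10 * PowerSeries.X ^ 3) := by
      rw [PowerSeries.coeff_mul_X_pow']
      split_ifs
      · exact hcon _
      · exact le_rfl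
    have h3 : 0 ≤ PowerSeries.coeff k (P4 10 * PowerSeries.X ^ 6) := by
      rw [PowerSeries.coeff_mul_X_pow']
      split_ifs
      · exact hcon _
      · exact le_rfl
    have h4 := hcon k
    linarith
  have hp : ((PowerSeries.trunc (K.natDegree + 1) (P4 10) : Polynomial ℚ) : PowerSeries ℚ)
      = P4 10 := by
    ext k
    rw [Polynomial.coeff_coe, PowerSeries.coeff_trunc]
    split_ifs with h
    · rfl
    · rw [hzero k (by omega)]
  apply key2 (PowerSeries.trunc (K.natDegree + 1) (P4 10))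
  apply Polynomial.coe_injective ℚ
  rw [Polynomial.coe_mul, hp, ← P4_mul]
  ring

end Pool.Agent.Results.MP_472c23_co.NegativeCoefficient
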